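import Pool.Agent.Work.MP_d95c0d_gt.Laver
import Pool.Agent.Work.MP_d95c0d_gt.Iter7
import Pool.Agent.Work.MP_d95c0d_gt.Plumb
import Pool.Agent.Work.MP_d95c0d_gt.Inner
import Pool.Agent.Work.MP_d95c0d_gt.Phi1
import Pool.Agent.Work.MP_d95c0d_gt.Phi23
import Pool.Agent.Work.MP_d95c0d_gt.Reindex
import Pool.Agent.Work.MP_d95c0d_gt.SharpB

/-! The statement that every perfectly normal non-archimedean space is metrizable holds in a model
of ZFC if there are two supercompact cardinals, and it implies that `0♯` exists. -/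

namespace Pool.Agent.Results.MP_d95c0d_gt.BothBounds
open Pool.Agent.Lib.ZFModel Pool.Agent.Work.MP_63c7e0_lc Pool.Agent.Work.MP_58a5a1_lc
  Pool.Agent.Work.MP_d95c0d_gt

theorem result :
    (∀ κ₀ κ₁ : Cardinal.{0}, κ₀ < κ₁ → Supercompact κ₀ → Supercompact κ₁ →
      ∃ (M : Type 1) (E : M → M → Prop), IsZFC E ∧
        ∀ X τ, IsTop E X τ → IsT1 E X τ → NonArchimedean E τ → PerfectlyNormal E X τ →
          Ultrametrizable E X τ) ∧
    ((∀ (X : Type) [TopologicalSpace X], T1Space X → PerfectlyNormalSpace X →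
      (∃ B : Set (Set X), TopologicalSpace.IsTopologicalBasis B ∧
        ∀ p : X, ∀ U ∈ B, ∀ V ∈ B, p ∈ U → p ∈ V → U ⊆ V ∨ V ⊆ U) →
      TopologicalSpace.MetrizableSpace X) → Pool.Agent.Lib.Sharp.ZeroSharp) := by
  refine ⟨fun κ₀ κ₁ h h₀ h₁ => ?_, fun h => by_contra fun hz => ?_⟩
  · obtain ⟨K, _, _, _, ⟨L⟩⟩ := exists_LC h h₀ h₁
    obtain ⟨P, _, p, ⟨S⟩⟩ := exists_sys L
    obtain ⟨M, E, zfc, wd, hw⟩ := plumb P p fun _ T => psi_of S.w_lt T (phi1 S) (phi2 S) (phi3 S T)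
    exact ⟨M, E, zfc, fun X τ a b c d => (inner zfc wd a b c d.2).resolve_right fun ⟨t⟩ => hw t⟩
  · obtain ⟨X, _, h1, h2, h3, h4, -⟩ := Sq.space_of_not_sharp hz
    exact h4 (h X h1 h3 h2)

end Pool.Agent.Results.MP_d95c0d_gt.BothBounds
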