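import Pool.Agent.Work.MP_d95c0d_gt.Laver
import Pool.Agent.Work.MP_d95c0d_gt.Iter7
import Pool.Agent.Work.MP_d95c0d_gt.Plumb
import Pool.Agent.Work.MP_d95c0d_gt.Inner
import Pool.Agent.Work.MP_d95c0d_gt.Phi1
import Pool.Agent.Work.MP_d95c0d_gt.Phi23
import Pool.Agent.Work.MP_d95c0d_gt.Reindex

/-! If there are two supercompact cardinals, then there is a model of ZFC in which every
perfectly normal non-archimedean (T₁) space is ultrametrizable, hence metrizable. -/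

namespace Pool.Agent.Results.MP_d95c0d_gt.ConNoExample
open Pool.Agent.Lib.ZFModel Pool.Agent.Work.MP_63c7e0_lc Pool.Agent.Work.MP_58a5a1_lc
  Pool.Agent.Work.MP_d95c0d_gt

theorem result (κ₀ κ₁ : Cardinal.{0}) (h : κ₀ < κ₁) (h₀ : Supercompact κ₀)
    (h₁ : Supercompact κ₁) : ∃ (M : Type 1) (E : M → M → Prop), IsZFC E ∧
      ∀ X τ, IsTop E X τ → IsT1 E X τ → NonArchimedean E τ → PerfectlyNormal E X τ →
        Ultrametrizable E X τ := by
  obtain ⟨K, _, _, _, ⟨L⟩⟩ := exists_LC h h₀ h₁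
  obtain ⟨P, _, p, ⟨S⟩⟩ := exists_sys L
  obtain ⟨M, E, zfc, wd, hw⟩ := plumb P p fun _ T => psi_of S.w_lt T (phi1 S) (phi2 S) (phi3 S T)
  exact ⟨M, E, zfc, fun X τ a b c d => (inner zfc wd a b c d.2).resolve_right fun ⟨t⟩ => hw t⟩

end Pool.Agent.Results.MP_d95c0d_gt.ConNoExample
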