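import Pool.Agent.Work.MP_d95c0d_gt.SharpB

/-! If `0♯` does not exist, there is a perfectly normal non-archimedean `T₁` space that is not
metrizable and has no point-countable base. -/

namespace Pool.Agent.Results.MP_d95c0d_gt.NeedsSharp
open Pool.Agent.Lib.Sharp Pool.Agent.Work.MP_d95c0d_gt.Sq

theorem result : ZeroSharp ∨ ∃ (X : Type) (_ : TopologicalSpace X), T1Space X ∧
    NonArchimedean X ∧ PerfectlyNormalSpace X ∧ ¬ TopologicalSpace.MetrizableSpace X ∧
    ¬ HasPointCountableBase X :=
  or_iff_not_imp_left.2 space_of_not_sharp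

end Pool.Agent.Results.MP_d95c0d_gt.NeedsSharp
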