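import Pool.Agent.Work.MP_d95c0d_gt.SqD

/-! If `κ ^ ℵ₀ = κ`, `2 ^ κ = κ⁺` and `□_κ` holds for one infinite cardinal `κ`, then there is a
perfectly normal non-archimedean `T₁` space that is not metrizable and has no point-countable
base. -/

namespace Pool.Agent.Results.MP_d95c0d_gt.SquareExample
open Cardinal Pool.Agent.Work.MP_d95c0d_gt.Sq

universe u

theorem result (κ : Cardinal.{u}) (h0 : ℵ₀ ≤ κ) (h1 : κ ^ ℵ₀ = κ) (h2 : 2 ^ κ = Order.succ κ)
    (h3 : Square κ) : ∃ (X : Type u) (_ : TopologicalSpace X), T1Space X ∧ NonArchimedean X ∧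
      PerfectlyNormalSpace X ∧ ¬ TopologicalSpace.MetrizableSpace X ∧
      ¬ HasPointCountableBase X :=
  main h0 h1 h2 h3

end Pool.Agent.Results.MP_d95c0d_gt.SquareExample
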